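import Pool.Agent.Q82.MD.Stm
import Mathlib.Topology.Algebra.Module.FiniteDimensionBilinear

/-!
# MD-10 KS: functions of the conformal part, smooth and strict
-/

set_option autoImplicit false

namespace Pool.Agent.Q223.MD

open MeasureTheory Set Filter Topology
open Pool.Agent.W779.Morrey Pool.Agent.Q82.MD

section gen

variable {X Y : Type*} [NormedAddCommGroup X] [NormedSpace ℝ X] [NormedAddCommGroup Y]
  [NormedSpace ℝ Y]

theorem fderiv_pull (T : Y → Y →L[ℝ] ℝ) (a : X →L[ℝ] Y) (F : X)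
    (hT : DifferentiableAt ℝ T (a F)) :
    ∃ D : X →L[ℝ] X →L[ℝ] ℝ, HasFDerivAt (fun F => (T (a F)).comp a) D F ∧
      ∀ G H, D G H = fderiv ℝ T (a F) (a G) (a H) := by
  have h1 : HasFDerivAt (fun F => T (a F)) ((fderiv ℝ T (a F)).comp a) F :=
    hT.hasFDerivAt.comp F a.hasFDerivAt
  have h2 := h1.clm_comp (hasFDerivAt_const a F)
  refine ⟨_, h2, fun G H => ?_⟩
  simp

theorem hasFDerivAt_W {ψ : Y → ℝ} (hψ : Differentiable ℝ ψ) (a : X →L[ℝ] Y)
    (q : X →L[ℝ] X →L[ℝ] ℝ) (F : X) :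
    HasFDerivAt (fun F => ψ (a F) + q F F) ((fderiv ℝ ψ (a F)).comp a + (q F + q.flip F)) F := by
  have h1 : HasFDerivAt (fun F => ψ (a F)) ((fderiv ℝ ψ (a F)).comp a) F :=
    (hψ (a F)).hasFDerivAt.comp F a.hasFDerivAt
  have h2 : HasFDerivAt (fun F => q F F) (q F + q.flip F) F := by
    have h3 := q.hasFDerivAt_of_bilinear (hasFDerivAt_id F) (hasFDerivAt_id F)
    refine h3.congr_fderiv ?_
    ext G
    simp
  exact h1.fun_add h2

theorem hs_W {ψ : Y → ℝ} (hψ : ContDiff ℝ 2 ψ) (a : X →L[ℝ] Y)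
    (q : X →L[ℝ] X →L[ℝ] ℝ) (F G H : X) :
    fderiv ℝ (fderiv ℝ (fun F => ψ (a F) + q F F)) F G H =
      fderiv ℝ (fderiv ℝ ψ) (a F) (a G) (a H) + (q G H + q H G) := by
  have h1 : fderiv ℝ (fun F => ψ (a F) + q F F) =
      fun F => (fderiv ℝ ψ (a F)).comp a + (q + q.flip) F := by
    funext F
    rw [(hasFDerivAt_W (hψ.differentiable (by norm_num)) a q F).fderiv]
    rfl
  have h2 : ContDiff ℝ 1 (fderiv ℝ ψ) := hψ.fderiv_right (by norm_num)
  obtain ⟨D, hD, hD2⟩ := fderiv_pull (fderiv ℝ ψ) a F (h2.differentiable (by norm_num) _)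
  have h3 : HasFDerivAt (fun F => (q + q.flip) F) (q + q.flip) F := (q + q.flip).hasFDerivAt
  rw [h1, (hD.fun_add h3).fderiv]
  simp only [_root_.add_apply, hD2, ContinuousLinearMap.flip_apply]

theorem ed_W {T : Y → Y →L[ℝ] ℝ} (hT : ContDiff ℝ 1 T) (a : X →L[ℝ] Y)
    (c : X →L[ℝ] X →L[ℝ] ℝ) (F G H : X) :
    fderiv ℝ (fun F => c F + (T (a F)).comp a) F G H =
      c G H + fderiv ℝ T (a F) (a G) (a H) := by
  obtain ⟨D, hD, hD2⟩ := fderiv_pull T a F (hT.differentiable (by norm_num) _)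
  rw [(c.hasFDerivAt.fun_add hD).fderiv]
  simp only [_root_.add_apply, hD2]

end gen

/-- the conformal part as a continuous linear map -/
noncomputable def cfL : E →L[ℝ] V := LinearMap.toContinuousLinearMap
  { toFun := cf
    map_add' := fun F G => by
      funext i; fin_cases i <;> simp [cf] <;> ring
    map_smul' := fun c F => by
      funext i; fin_cases i <;> simp [cf] <;> ring }

theorem cfL_apply (F : E) : cfL F = cf F := rfl

theorem cf0 (F : E) : cf F 0 = F 0 0 + F 1 1 := rfl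

theorem cf1 (F : E) : cf F 1 = F 1 0 - F 0 1 := rfl

/-- unit matrices -/
def un (r l : Fin 2) : E := fun i j => if i = r ∧ j = l then 1 else 0

theorem E_eq (F : E) : F = F 0 0 • un 0 0 + F 0 1 • un 0 1 + F 1 0 • un 1 0 + F 1 1 • un 1 1 := by
  funext i j
  fin_cases i <;> fin_cases j <;> simp [un]

theorem m_eq (m : E →L[ℝ] V) (F : E) (i : Fin 2) : m F i = F 0 0 * m (un 0 0) i +
    F 0 1 * m (un 0 1) i + F 1 0 * m (un 1 0) i + F 1 1 * m (un 1 1) i := by
  conv_lhs => rw [E_eq F]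
  simp only [map_add, map_smul, Pi.add_apply, Pi.smul_apply, smul_eq_mul]

/-- the quadratic part -/
noncomputable def qq (m : E →L[ℝ] V) (κ : ℝ) : E →L[ℝ] E →L[ℝ] ℝ :=
  LinearMap.toContinuousBilinearMap
  (LinearMap.mk₂ ℝ (fun F G : E => dp (cf F) (m G) + κ * (F 0 0 * G 1 1 - F 0 1 * G 1 0))
    (fun F F' G => by simp only [dp, cf0, cf1, Pi.add_apply]; ring)
    (fun c F G => by simp only [dp, cf0, cf1, Pi.smul_apply, smul_eq_mul]; ring)
    (fun F G G' => by simp only [dp, map_add, Pi.add_apply]; ring)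
    (fun c F G => by simp only [dp, map_smul, Pi.smul_apply, smul_eq_mul]; ring))

theorem qq_apply (m : E →L[ℝ] V) (κ : ℝ) (F G : E) :
    qq m κ F G = dp (cf F) (m G) + κ * (F 0 0 * G 1 1 - F 0 1 * G 1 0) := rfl

/-- the constant form -/
noncomputable def tc (m : E →L[ℝ] V) (κ : ℝ) : E →L[ℝ] E →L[ℝ] ℝ :=
  LinearMap.toContinuousBilinearMap
  (LinearMap.mk₂ ℝ (fun F G : E => -(2 * (F 0 1 * dp (cf G) (m (un 0 0)) - F 0 0 *
      dp (cf G) (m (un 0 1)) + F 1 1 * dp (cf G) (m (un 1 0)) - F 1 0 * dp (cf G) (m (un 1 1))) +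
      2 * κ * (F 0 0 * G 1 0 + F 0 1 * G 1 1)))
    (fun F F' G => by simp only [dp, cf0, cf1, Pi.add_apply]; ring)
    (fun c F G => by simp only [dp, cf0, cf1, Pi.smul_apply, smul_eq_mul]; ring)
    (fun F G G' => by simp only [dp, cf0, cf1, Pi.add_apply]; ring)
    (fun c F G => by simp only [dp, cf0, cf1, Pi.smul_apply, smul_eq_mul]; ring))

theorem tc_apply (m : E →L[ℝ] V) (κ : ℝ) (F G : E) :
    tc m κ F G = -(2 * (F 0 1 * dp (cf G) (m (un 0 0)) - F 0 0 *
      dp (cf G) (m (un 0 1)) + F 1 1 * dp (cf G) (m (un 1 0)) - F 1 0 * dp (cf G) (m (un 1 1))) +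
      2 * κ * (F 0 0 * G 1 0 + F 0 1 * G 1 1)) := rfl

/-- the cross term -/
noncomputable def sc (m : E →L[ℝ] V) : (V × V) →L[ℝ] (V × V) →L[ℝ] ℝ :=
  LinearMap.toContinuousBilinearMap
  (LinearMap.mk₂ ℝ (fun x x' : V × V =>
      (x'.1 0 - x'.2 1) * (dp x.1 (m (un 0 0)) + dp x.2 (m (un 0 1))) +
      (x'.2 0 + x'.1 1) * (dp x.1 (m (un 1 0)) + dp x.2 (m (un 1 1))))
    (fun x y z => by simp only [dp, Prod.fst_add, Prod.snd_add, Pi.add_apply]; ring)
    (fun c x z => by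
      simp only [dp, Prod.smul_fst, Prod.smul_snd, Pi.smul_apply, smul_eq_mul]; ring)
    (fun x y z => by simp only [dp, Prod.fst_add, Prod.snd_add, Pi.add_apply]; ring)
    (fun c x z => by
      simp only [dp, Prod.smul_fst, Prod.smul_snd, Pi.smul_apply, smul_eq_mul]; ring))

theorem sc_apply (m : E →L[ℝ] V) (x x' : V × V) : sc m x x' =
      (x'.1 0 - x'.2 1) * (dp x.1 (m (un 0 0)) + dp x.2 (m (un 0 1))) +
      (x'.2 0 + x'.1 1) * (dp x.1 (m (un 1 0)) + dp x.2 (m (un 1 1))) := rfl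

section pbs

variable {X : Type*} [NormedAddCommGroup X] [NormedSpace ℝ X]

/-- the quadratic form of the system -/
noncomputable def GG (B : V →L[ℝ] V →L[ℝ] ℝ) (a b : X →L[ℝ] V) (S : X →L[ℝ] X →L[ℝ] ℝ) :
    X →L[ℝ] X →L[ℝ] ℝ := B.bilinearComp a a + B.bilinearComp b b + (S + S.flip)

theorem GG_apply (B : V →L[ℝ] V →L[ℝ] ℝ) (a b : X →L[ℝ] V) (S : X →L[ℝ] X →L[ℝ] ℝ) (x x' : X) :
    GG B a b S x x' = B (a x) (a x') + B (b x) (b x') + (S x x' + S x' x) := rfl

theorem cont_GG {B : V → V →L[ℝ] V →L[ℝ] ℝ} (hB : Continuous B) (a b : X →L[ℝ] V)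
    (S : X →L[ℝ] X →L[ℝ] ℝ) : Continuous fun y => GG (B y) a b S := by
  have c : ∀ a : X →L[ℝ] V, Continuous fun y => (B y).bilinearComp a a := by
    intro a
    have e1 := hB.clm_comp (continuous_const (y := a))
    have e2 := (ContinuousLinearMap.flipₗᵢ ℝ X V ℝ).continuous.comp e1
    have e3 := e2.clm_comp (continuous_const (y := a))
    exact (ContinuousLinearMap.flipₗᵢ ℝ X X ℝ).continuous.comp e3
  exact ((c a).add (c b)).add continuous_const

end pbs

theorem ks : S_FORM → S_Ks := by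
  intro hform ψ m κ η hψ hη hyp
  have h2 : ContDiff ℝ 1 (fderiv ℝ ψ) := hψ.fderiv_right (by norm_num)
  have h3 : Continuous (fderiv ℝ (fderiv ℝ ψ)) := h2.continuous_fderiv (by norm_num)
  have hsy : ∀ y a b, fderiv ℝ (fderiv ℝ ψ) y a b = fderiv ℝ (fderiv ℝ ψ) y b a := by
    intro y a b
    have h4 : IsSymmSndFDerivAt ℝ ψ y := hψ.contDiffAt.isSymmSndFDerivAt (by simp)
    exact h4 a b
  set G : V → (V × V) →L[ℝ] (V × V) →L[ℝ] ℝ := fun y =>
    GG (fderiv ℝ (fderiv ℝ ψ) y) (ContinuousLinearMap.fst ℝ V V)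
      (ContinuousLinearMap.snd ℝ V V) (sc m) with hG
  have hGa : ∀ y x x', G y x x' = fderiv ℝ (fderiv ℝ ψ) y x.1 x'.1 +
      fderiv ℝ (fderiv ℝ ψ) y x.2 x'.2 + (sc m x x' + sc m x' x) := by
    intro y x x'
    rw [hG]
    simp only [GG_apply, ContinuousLinearMap.coe_fst', ContinuousLinearMap.coe_snd']
  have hGc := cont_GG h3 (ContinuousLinearMap.fst ℝ V V) (ContinuousLinearMap.snd ℝ V V) (sc m)
  have hdiag : ∀ (y p ξ : V), G y (ξ 0 • p, ξ 1 • p) (ξ 0 • p, ξ 1 • p) =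
      dp ξ ξ * fderiv ℝ (fderiv ℝ ψ) y p p +
      2 * ((ξ 0 * p 0 - ξ 1 * p 1) * (ξ 0 * dp p (m (un 0 0)) + ξ 1 * dp p (m (un 0 1))) +
        (ξ 1 * p 0 + ξ 0 * p 1) * (ξ 0 * dp p (m (un 1 0)) + ξ 1 * dp p (m (un 1 1)))) := by
    intro y p ξ
    rw [hGa, sc_apply]
    simp only [map_smul, _root_.smul_apply, smul_eq_mul, dp, Pi.smul_apply]
    ring
  have hpos : ∀ (y p ξ : V), 0 < dp ξ ξ →
      η * (dp ξ ξ * dp p p) ≤ G y (ξ 0 • p, ξ 1 • p) (ξ 0 • p, ξ 1 • p) := by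
    intro y p ξ hξ
    set N : ℝ := dp ξ ξ with hN
    have hN0 : N ≠ 0 := hξ.ne'
    have hNe : N = ξ 0 * ξ 0 + ξ 1 * ξ 1 := rfl
    set z : V := ![(ξ 0 * p 0 - ξ 1 * p 1) / N, (ξ 1 * p 0 + ξ 0 * p 1) / N] with hz
    have hz0 : z 0 = (ξ 0 * p 0 - ξ 1 * p 1) / N := rfl
    have hz1 : z 1 = (ξ 1 * p 0 + ξ 0 * p 1) / N := rfl
    have hcf : cf (tens z ξ) = p := by
      funext i
      fin_cases i
      · show z 0 * ξ 0 + z 1 * ξ 1 = p 0
        rw [hz0, hz1]
        field_simp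
        rw [hNe]
        ring
      · show z 1 * ξ 0 - z 0 * ξ 1 = p 1
        rw [hz0, hz1]
        field_simp
        rw [hNe]
        ring
    have hzz : dp z z * N = dp p p := by
      unfold dp
      rw [hz0, hz1]
      field_simp
      rw [hNe]
      ring
    have h5 := hyp y z ξ
    rw [hcf] at h5
    have h6 : dp p (m (tens z ξ)) * N = (ξ 0 * p 0 - ξ 1 * p 1) * (ξ 0 * dp p (m (un 0 0)) +
        ξ 1 * dp p (m (un 0 1))) +
        (ξ 1 * p 0 + ξ 0 * p 1) * (ξ 0 * dp p (m (un 1 0)) + ξ 1 * dp p (m (un 1 1))) := by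
      simp only [dp, m_eq m (tens z ξ)]
      simp only [tens, hz0, hz1]
      field_simp
      ring
    rw [hdiag, ← h6]
    have h7 := mul_le_mul_of_nonneg_left h5 hξ.le
    unfold hs at h7
    calc η * (N * dp p p) = N * (η * dp z z * N) := by rw [← hzz]; ring
      _ ≤ _ := h7
      _ = _ := by ring
  have hnorm : ∀ (p ξ : V), ‖((ξ 0 • p, ξ 1 • p) : V × V)‖ ^ 2 ≤ dp ξ ξ * dp p p := by
    intro p ξ
    have e1 : ‖p‖ ^ 2 ≤ dp p p := by
      have e2 : ‖p‖ ≤ Real.sqrt (dp p p) := by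
        refine (pi_norm_le_iff_of_nonneg (Real.sqrt_nonneg _)).2 fun i => ?_
        apply Real.abs_le_sqrt
        unfold dp
        fin_cases i
        · show p 0 ^ 2 ≤ _
          nlinarith [mul_self_nonneg (p 1)]
        · show p 1 ^ 2 ≤ _
          nlinarith [mul_self_nonneg (p 0)]
      have e3 : 0 ≤ dp p p := by
        unfold dp
        nlinarith [mul_self_nonneg (p 0), mul_self_nonneg (p 1)]
      calc ‖p‖ ^ 2 ≤ Real.sqrt (dp p p) ^ 2 := pow_le_pow_left₀ (norm_nonneg _) e2 2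
        _ = dp p p := Real.sq_sqrt e3
    have e4 : (0 : ℝ) ≤ dp p p := (sq_nonneg _).trans e1
    rw [Prod.norm_def]
    simp only [norm_smul, Real.norm_eq_abs]
    rcases max_choice (|ξ 0| * ‖p‖) (|ξ 1| * ‖p‖) with h | h
    · rw [h, mul_pow, sq_abs]
      unfold dp at e4 e1 ⊢
      nlinarith [mul_self_nonneg (ξ 1), mul_self_nonneg (ξ 0), mul_nonneg (mul_self_nonneg (ξ 1)) e4, mul_le_mul_of_nonneg_left e1 (mul_self_nonneg (ξ 0))]
    · rw [h, mul_pow, sq_abs]
      unfold dp at e4 e1 ⊢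
      nlinarith [mul_self_nonneg (ξ 1), mul_self_nonneg (ξ 0), mul_nonneg (mul_self_nonneg (ξ 0)) e4, mul_le_mul_of_nonneg_left e1 (mul_self_nonneg (ξ 1))]
  obtain ⟨θ₀, hθ₀, hθ⟩ := hform (V × V) G (ContinuousLinearMap.fst ℝ V V)
    (ContinuousLinearMap.snd ℝ V V) η hGc (by
      intro y x x'
      rw [hGa, hGa, hsy y x.1 x'.1, hsy y x.2 x'.2]
      ring)
    ⟨(![1, 0], ![0, 1]), by
      rw [ContinuousLinearMap.coe_fst', ContinuousLinearMap.coe_snd']
      simp [wd]⟩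
    ⟨(![0, 1], ![1, 0]), by
      rw [ContinuousLinearMap.coe_fst', ContinuousLinearMap.coe_snd']
      simp [wd]⟩ hη (by
      rintro y ⟨u, v⟩ hw
      rw [ContinuousLinearMap.coe_fst', ContinuousLinearMap.coe_snd'] at hw
      simp only [wd] at hw
      by_cases hu : u = 0
      · subst hu
        have e1 := hpos y v ![0, 1] (by simp [dp])
        have e2 := hnorm v ![0, 1]
        have e3 : (((![0, 1] : V) 0 • v, (![0, 1] : V) 1 • v) : V × V) = (0, v) := by simp
        rw [e3] at e1 e2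
        exact (mul_le_mul_of_nonneg_left e2 hη.le).trans e1
      · have hupos : 0 < u 0 * u 0 + u 1 * u 1 := by
          by_contra hneg
          push Not at hneg
          apply hu
          have a0 := mul_self_nonneg (u 0)
          have a1 := mul_self_nonneg (u 1)
          have b0 : u 0 = 0 := mul_self_eq_zero.1 (le_antisymm (by linarith) a0)
          have b1 : u 1 = 0 := mul_self_eq_zero.1 (le_antisymm (by linarith) a1)
          funext i
          fin_cases i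
          · exact b0
          · exact b1
        set t : ℝ := (u 0 * v 0 + u 1 * v 1) / (u 0 * u 0 + u 1 * u 1) with ht
        have e1 := hpos y u ![1, t] (by simp [dp]; nlinarith [mul_self_nonneg t])
        have e2 := hnorm u ![1, t]
        have e3 : (((![1, t] : V) 0 • u, (![1, t] : V) 1 • u) : V × V) = (u, v) := by
          refine Prod.ext ?_ ?_
          · simp
          · funext i
            have hu0 := hupos.ne'
            fin_cases i
            · show t * u 0 = v 0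
              rw [ht, div_mul_eq_mul_div, div_eq_iff hu0]
              linear_combination (u 1) * hw
            · show t * u 1 = v 1
              rw [ht, div_mul_eq_mul_div, div_eq_iff hu0]
              linear_combination (-(u 0)) * hw
        rw [e3] at e1 e2
        exact (mul_le_mul_of_nonneg_left e2 hη.le).trans e1)
  set W : E → ℝ := fun F => ψ (cfL F) + qq m κ F F with hW
  have hWe : ∀ F : E, W F = ψ (cf F) + dp (cf F) (m F) +
      κ * (F 0 0 * F 1 1 - F 0 1 * F 1 0) := by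
    intro F
    rw [hW]
    simp only [cfL_apply, qq_apply]
    ring
  have hWC : ContDiff ℝ 2 W := by
    rw [hW]
    refine (hψ.comp cfL.contDiff).add ?_
    exact (qq m κ).contDiff.clm_apply contDiff_id
  set θ : E → E →L[ℝ] ℝ := fun F => tc m κ F + (θ₀ (cfL F)).comp cfL with hθd
  have hθC : ContDiff ℝ 1 θ := by
    rw [hθd]
    refine (tc m κ).contDiff.add ?_
    exact (hθ₀.comp cfL.contDiff).clm_comp contDiff_const
  have hcert : HeatCert W θ := by
    intro F G₀ G₁ hsym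
    rw [hW, hθd, hs_W hψ, hs_W hψ, ed_W hθ₀, ed_W hθ₀]
    have h8 := hθ (cfL F) (cfL G₀, cfL G₁)
    rw [hGa, sc_apply, ContinuousLinearMap.coe_fst', ContinuousLinearMap.coe_snd'] at h8
    unfold ed at h8
    simp only at h8
    refine h8.trans (le_of_eq ?_)
    have s0 := hsym 0
    have s1 := hsym 1
    simp only [qq_apply, tc_apply, cfL_apply, dp, m_eq m G₀, m_eq m G₁, cf0, cf1, s0, s1]
    ring
  have hqc := QCtrig_of_cert hWC hθC hcert
  intro F₀ Ω hΩ hb ϑ hK h0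
  obtain ⟨K, hK⟩ := hK
  have h9 := qc_of_trig hWC.continuous hqc F₀ hΩ hb hK h0
  have e1 : (fun F : Matrix (Fin 2) (Fin 2) ℝ => ψ (cf F) + dp (cf F) (m F) +
      κ * (F 0 0 * F 1 1 - F 0 1 * F 1 0)) F₀ = W F₀ := (hWe F₀).symm
  rw [e1]
  refine h9.trans (le_of_eq ?_)
  refine integral_congr_ae (Eventually.of_forall fun x => ?_)
  refine (hWe _).trans ?_
  rw [gr_eq_grad]
  rfl

end Pool.Agent.Q223.MD
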