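import Pool.Agent.Q88.MD.Stm

set_option autoImplicit false

/-!
# Project MD (helper88), jobs MM1, MM2, MM4: the moments of the centred number of the digits `1`
-/

noncomputable section

namespace Pool.Agent.Q223.MD

open Pool.Agent.Q88.MD

theorem E_succ (g lam q : ℝ) (n : ℕ) (F : ℕ → ℝ) :
    ∑ k ∈ Finset.range (2 ^ (n + 1)), ms g lam q (n + 1) k * F k =
      ∑ k ∈ Finset.range (2 ^ n), ms g lam q n k *
        (pz g (st g lam q n k) * F (2 * k) + (1 - pz g (st g lam q n k)) * F (2 * k + 1)) := by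
  rw [sum_dy]
  refine Finset.sum_congr rfl fun k _ => ?_
  rw [ms_even, ms_odd]
  ring

theorem WW_even (lam : ℝ) (n k : ℕ) : WW lam (n + 1) (2 * k) = WW lam n k - (1 - 1 / lam) := by
  rw [WW, if_pos (by omega), show 2 * k / 2 = k by omega]
  ring

theorem WW_odd (lam : ℝ) (n k : ℕ) : WW lam (n + 1) (2 * k + 1) = WW lam n k + 1 / lam := by
  rw [WW, if_neg (by omega), show (2 * k + 1) / 2 = k by omega]

theorem WW_le {lam : ℝ} (hl : 1 < lam) (n : ℕ) : ∀ k, |WW lam n k| ≤ n := by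
  have h0 : 0 < 1 / lam := by positivity
  have h1 : 1 / lam < 1 := by rw [div_lt_one (by linarith)]; exact hl
  induction n with
  | zero => intro k; simp [WW]
  | succ n ih =>
    intro k
    rw [WW]
    have h2 := ih (k / 2)
    rw [abs_le] at h2 ⊢
    push_cast
    split_ifs
    · constructor <;> linarith
    · constructor <;> linarith

/-- sums of steps -/
theorem le_sum_of_step (a b : ℕ → ℝ) (h0 : a 0 ≤ 0) (h : ∀ n, a (n + 1) ≤ a n + b n) (n : ℕ) :
    a n ≤ ∑ m ∈ Finset.range n, b m := by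
  induction n with
  | zero => simpa using h0
  | succ n ih =>
    rw [Finset.sum_range_succ]
    linarith [h n]

theorem sum_pow_mul_le {ρ : ℝ} (h0 : 0 < ρ) (h1 : ρ < 1) (j : ℕ) :
    ∃ K : ℝ, 0 ≤ K ∧ ∀ n : ℕ, ∑ m ∈ Finset.range n, (m : ℝ) ^ j * ρ ^ m ≤ K := by
  have hs : Summable fun m : ℕ => (m : ℝ) ^ j * ρ ^ m := by
    apply summable_pow_mul_geometric_of_norm_lt_one
    rw [Real.norm_eq_abs, abs_of_pos h0]
    exact h1
  refine ⟨∑' m : ℕ, (m : ℝ) ^ j * ρ ^ m, tsum_nonneg fun m => by positivity, fun n => ?_⟩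
  exact hs.sum_le_tsum _ fun m _ => by positivity

/-- the facts used in all three jobs -/
structure Data (g lam q : ℝ) (C ρ : ℝ) : Prop where
  C0 : 0 < C
  r0 : 0 < ρ
  r1 : ρ < 1
  P0 : 0 < 1 / lam
  P1 : 1 / lam < 1
  l1 : 1 < lam
  ms0 : ∀ n k, 0 < ms g lam q n k
  tot : ∀ n, ∑ k ∈ Finset.range (2 ^ n), ms g lam q n k = 1
  p0 : ∀ n k, 0 < pz g (st g lam q n k)
  p1 : ∀ n k, pz g (st g lam q n k) < 1
  cnv : ∀ n k, |pz g (st g lam q n k) - 1 / lam| ≤ C * ρ ^ n

theorem data (h : S_spos) (h1 : S_cnv) {g lam q : ℝ} (hg : 0 < g) (hl : 1 < lam) (hq : g < q)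
    (he : g / (lam - 1) = q - g) : ∃ C ρ : ℝ, Data g lam q C ρ := by
  obtain ⟨C, hC, ρ, hρ, hc⟩ := h1 g lam q hg hl hq he
  have hs := h g lam q hg hl.le hq.le
  refine ⟨C, ρ, hC, hρ.1, hρ.2, by positivity, by rw [div_lt_one (by linarith)]; exact hl, hl,
    fun n k => ((hs n).1 k).2, fun n => (hs n).2, fun n k => ?_, fun n k => ?_, hc⟩
  · have := ((hs n).1 k).1
    unfold pz
    positivity
  · have := ((hs n).1 k).1
    unfold pz
    rw [div_lt_one (by linarith)]
    linarith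

/-- the mean of a bounded function -/
theorem Data.mean_le {g lam q C ρ : ℝ} (D : Data g lam q C ρ) {n : ℕ} {F : ℕ → ℝ} {B : ℝ}
    (hF : ∀ k, F k ≤ B) : ∑ k ∈ Finset.range (2 ^ n), ms g lam q n k * F k ≤ B := by
  calc ∑ k ∈ Finset.range (2 ^ n), ms g lam q n k * F k ≤
      ∑ k ∈ Finset.range (2 ^ n), ms g lam q n k * B :=
        Finset.sum_le_sum fun k _ => mul_le_mul_of_nonneg_left (hF k) (D.ms0 n k).le
    _ = B := by rw [← Finset.sum_mul, D.tot, one_mul]

theorem mm1 (h : S_spos) (h1 : S_cnv) : S_mm1 := by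
  intro g lam q hg hl hq he
  obtain ⟨C, ρ, D⟩ := data h h1 hg hl hq he
  obtain ⟨K, hK0, hK⟩ := sum_pow_mul_le D.r0 D.r1 0
  have hC := D.C0
  refine ⟨C * K + 1, by positivity, fun n => ?_⟩
  have hstep : ∀ n, ∑ k ∈ Finset.range (2 ^ (n + 1)), ms g lam q (n + 1) k * WW lam (n + 1) k =
      ∑ k ∈ Finset.range (2 ^ n), ms g lam q n k * WW lam n k +
      ∑ k ∈ Finset.range (2 ^ n), ms g lam q n k * (1 / lam - pz g (st g lam q n k)) := by
    intro n
    rw [E_succ, ← Finset.sum_add_distrib]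
    refine Finset.sum_congr rfl fun k _ => ?_
    rw [WW_even, WW_odd]
    ring
  have hd1 : ∀ n, ∑ k ∈ Finset.range (2 ^ n), ms g lam q n k * (1 / lam - pz g (st g lam q n k)) ≤ C * ρ ^ n := by
    intro n
    apply D.mean_le
    intro k
    have := (abs_le.1 (D.cnv n k)).1
    linarith
  have hd2 : ∀ n, ∑ k ∈ Finset.range (2 ^ n), ms g lam q n k * (pz g (st g lam q n k) - 1 / lam) ≤ C * ρ ^ n := by
    intro n
    apply D.mean_le
    intro k
    exact (abs_le.1 (D.cnv n k)).2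
  have hneg : ∀ n, ∑ k ∈ Finset.range (2 ^ n), ms g lam q n k * (1 / lam - pz g (st g lam q n k)) =
      - ∑ k ∈ Finset.range (2 ^ n), ms g lam q n k * (pz g (st g lam q n k) - 1 / lam) := by
    intro n
    rw [← Finset.sum_neg_distrib]
    refine Finset.sum_congr rfl fun k _ => ?_
    ring
  have hsum : ∑ m ∈ Finset.range n, C * ρ ^ m ≤ C * K := by
    rw [← Finset.mul_sum]
    have := hK n
    simp only [pow_zero, one_mul] at this
    gcongr
  rw [abs_le]
  constructor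
  · have h2 := le_sum_of_step (fun n => - ∑ k ∈ Finset.range (2 ^ n), ms g lam q n k * WW lam n k)
      (fun m => C * ρ ^ m) (by simp [WW]) (fun n => by
        have h3 := hstep n
        have h4 := hd2 n
        have h5 := hneg n
        linarith) n
    linarith
  · have h2 := le_sum_of_step (fun n => ∑ k ∈ Finset.range (2 ^ n), ms g lam q n k * WW lam n k)
      (fun m => C * ρ ^ m) (by simp [WW]) (fun n => by
        have h3 := hstep n
        have h4 := hd1 n
        linarith) n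
    linarith

theorem mm2 (h : S_spos) (h1 : S_cnv) : S_mm2 := by
  intro g lam q hg hl hq he
  obtain ⟨C, ρ, D⟩ := data h h1 hg hl hq he
  obtain ⟨K, hK0, hK⟩ := sum_pow_mul_le D.r0 D.r1 1
  have hC := D.C0
  have hP0 := D.P0
  have hP1 := D.P1
  set P : ℝ := 1 / lam with hP
  set c : ℝ := min P (1 - P) ^ 2 with hc
  have hm0 : 0 < min P (1 - P) := lt_min hP0 (by linarith)
  have hcP : c ≤ P ^ 2 := pow_le_pow_left₀ hm0.le (min_le_left _ _) 2
  have hcP' : c ≤ (1 - P) ^ 2 := pow_le_pow_left₀ hm0.le (min_le_right _ _) 2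
  have hP2 : P ^ 2 ≤ 1 := pow_le_one₀ hP0.le hP1.le
  have hP2' : (1 - P) ^ 2 ≤ 1 := pow_le_one₀ (by linarith) (by linarith)
  have hstep : ∀ n, ∑ k ∈ Finset.range (2 ^ (n + 1)), ms g lam q (n + 1) k * WW lam (n + 1) k ^ 2 =
      ∑ k ∈ Finset.range (2 ^ n), ms g lam q n k * WW lam n k ^ 2 +
      ∑ k ∈ Finset.range (2 ^ n), ms g lam q n k * (2 * WW lam n k * (P - pz g (st g lam q n k)) +
        (pz g (st g lam q n k) * (1 - P) ^ 2 + (1 - pz g (st g lam q n k)) * P ^ 2)) := by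
    intro n
    rw [E_succ, ← Finset.sum_add_distrib]
    refine Finset.sum_congr rfl fun k _ => ?_
    rw [WW_even, WW_odd]
    ring
  have hWe : ∀ n k, |2 * WW lam n k * (P - pz g (st g lam q n k))| ≤ 2 * n * (C * ρ ^ n) := by
    intro n k
    rw [abs_mul, abs_mul, abs_of_pos (by norm_num : (0 : ℝ) < 2), abs_sub_comm]
    have h2 := WW_le D.l1 n k
    have h3 := D.cnv n k
    have h4 := abs_nonneg (WW lam n k)
    have h5 := abs_nonneg (pz g (st g lam q n k) - P)
    gcongr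
  refine ⟨c, by positivity, 2 * C * K + 1, by positivity, fun n => ?_⟩
  have hsum : ∀ n : ℕ, ∑ m ∈ Finset.range n, (2 * (m : ℝ) * (C * ρ ^ m)) ≤ 2 * C * K := by
    intro n
    have h2 : ∑ m ∈ Finset.range n, (2 * (m : ℝ) * (C * ρ ^ m)) =
        2 * C * ∑ m ∈ Finset.range n, (m : ℝ) ^ 1 * ρ ^ m := by
      rw [Finset.mul_sum]
      refine Finset.sum_congr rfl fun m _ => ?_
      ring
    rw [h2]
    have := hK n
    gcongr
  constructor
  · have h2 := le_sum_of_step
      (fun n => c * n - ∑ k ∈ Finset.range (2 ^ n), ms g lam q n k * WW lam n k ^ 2)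
      (fun m => 2 * (m : ℝ) * (C * ρ ^ m)) (by simp [WW]) (fun n => by
        have h3 := hstep n
        have h4 : ∑ k ∈ Finset.range (2 ^ n), ms g lam q n k * -(2 * WW lam n k * (P - pz g (st g lam q n k)) +
            (pz g (st g lam q n k) * (1 - P) ^ 2 + (1 - pz g (st g lam q n k)) * P ^ 2)) ≤
            2 * n * (C * ρ ^ n) - c := by
          apply D.mean_le
          intro k
          have h5 := (abs_le.1 (hWe n k)).1
          have h6 := D.p0 n k
          have h7 := D.p1 n k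
          nlinarith
        have h8 : ∑ k ∈ Finset.range (2 ^ n), ms g lam q n k * -(2 * WW lam n k * (P - pz g (st g lam q n k)) +
            (pz g (st g lam q n k) * (1 - P) ^ 2 + (1 - pz g (st g lam q n k)) * P ^ 2)) =
            - ∑ k ∈ Finset.range (2 ^ n), ms g lam q n k * (2 * WW lam n k * (P - pz g (st g lam q n k)) +
            (pz g (st g lam q n k) * (1 - P) ^ 2 + (1 - pz g (st g lam q n k)) * P ^ 2)) := by
          rw [← Finset.sum_neg_distrib]
          refine Finset.sum_congr rfl fun k _ => ?_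
          ring
        push_cast
        linarith) n
    linarith [hsum n]
  · have h2 := le_sum_of_step
      (fun n => ∑ k ∈ Finset.range (2 ^ n), ms g lam q n k * WW lam n k ^ 2 - n)
      (fun m => 2 * (m : ℝ) * (C * ρ ^ m)) (by simp [WW]) (fun n => by
        have h3 := hstep n
        have h4 : ∑ k ∈ Finset.range (2 ^ n), ms g lam q n k * (2 * WW lam n k * (P - pz g (st g lam q n k)) +
            (pz g (st g lam q n k) * (1 - P) ^ 2 + (1 - pz g (st g lam q n k)) * P ^ 2)) ≤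
            2 * n * (C * ρ ^ n) + 1 := by
          apply D.mean_le
          intro k
          have h5 := (abs_le.1 (hWe n k)).2
          have h6 := D.p0 n k
          have h7 := D.p1 n k
          nlinarith
        push_cast
        linarith) n
    linarith [hsum n]

theorem mm4 (h : S_spos) (h1 : S_cnv) (h2 : S_mm2) : S_mm4 := by
  intro g lam q hg hl hq he
  obtain ⟨C, ρ, D⟩ := data h h1 hg hl hq he
  obtain ⟨K, hK0, hK⟩ := sum_pow_mul_le D.r0 D.r1 3
  obtain ⟨c2, hc2, C2, hC2, hE2⟩ := h2 g lam q hg hl hq he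
  have hC := D.C0
  have hP0 := D.P0
  have hP1 := D.P1
  set P : ℝ := 1 / lam with hP
  have hstep : ∀ n, ∑ k ∈ Finset.range (2 ^ (n + 1)), ms g lam q (n + 1) k * WW lam (n + 1) k ^ 4 =
      ∑ k ∈ Finset.range (2 ^ n), ms g lam q n k * WW lam n k ^ 4 +
      ∑ k ∈ Finset.range (2 ^ n), ms g lam q n k * (4 * WW lam n k ^ 3 * (P - pz g (st g lam q n k)) +
        6 * WW lam n k ^ 2 * (pz g (st g lam q n k) * (1 - P) ^ 2 + (1 - pz g (st g lam q n k)) * P ^ 2) +
        4 * WW lam n k * (-(pz g (st g lam q n k) * (1 - P) ^ 3) + (1 - pz g (st g lam q n k)) * P ^ 3) +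
        (pz g (st g lam q n k) * (1 - P) ^ 4 + (1 - pz g (st g lam q n k)) * P ^ 4)) := by
    intro n
    rw [E_succ, ← Finset.sum_add_distrib]
    refine Finset.sum_congr rfl fun k _ => ?_
    rw [WW_even, WW_odd]
    ring
  have hpt : ∀ n k, 4 * WW lam n k ^ 3 * (P - pz g (st g lam q n k)) +
        6 * WW lam n k ^ 2 * (pz g (st g lam q n k) * (1 - P) ^ 2 + (1 - pz g (st g lam q n k)) * P ^ 2) +
        4 * WW lam n k * (-(pz g (st g lam q n k) * (1 - P) ^ 3) + (1 - pz g (st g lam q n k)) * P ^ 3) +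
        (pz g (st g lam q n k) * (1 - P) ^ 4 + (1 - pz g (st g lam q n k)) * P ^ 4) ≤
        8 * WW lam n k ^ 2 + (4 * (n : ℝ) ^ 3 * (C * ρ ^ n) + 3) := by
    intro n k
    have hp0 := D.p0 n k
    have hp1 := D.p1 n k
    have hcv := D.cnv n k
    set p : ℝ := pz g (st g lam q n k) with hp
    set W : ℝ := WW lam n k with hW
    have a1 : 4 * W ^ 3 * (P - p) ≤ 4 * (n : ℝ) ^ 3 * (C * ρ ^ n) := by
      refine le_trans (le_abs_self _) ?_
      rw [abs_mul, abs_mul, abs_of_pos (by norm_num : (0 : ℝ) < 4), abs_sub_comm, abs_pow]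
      have b2 := WW_le D.l1 n k
      have b4 := abs_nonneg W
      have b5 := abs_nonneg (p - P)
      gcongr
    have hj : ∀ j : ℕ, P ^ j ≤ 1 ∧ (1 - P) ^ j ≤ 1 ∧ 0 ≤ P ^ j ∧ 0 ≤ (1 - P) ^ j := fun j =>
      ⟨pow_le_one₀ hP0.le hP1.le, pow_le_one₀ (by linarith) (by linarith), by positivity,
        pow_nonneg (by linarith) _⟩
    have a2 : p * (1 - P) ^ 2 + (1 - p) * P ^ 2 ≤ 1 := by
      have := hj 2
      nlinarith
    have a2' : 6 * W ^ 2 * (p * (1 - P) ^ 2 + (1 - p) * P ^ 2) ≤ 6 * W ^ 2 * 1 :=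
      mul_le_mul_of_nonneg_left a2 (by positivity)
    have a3 : |-(p * (1 - P) ^ 3) + (1 - p) * P ^ 3| ≤ 1 := by
      have := hj 3
      rw [abs_le]
      constructor
      · have e1 : p * (1 - P) ^ 3 ≤ 1 := by nlinarith
        have e2 : 0 ≤ (1 - p) * P ^ 3 := mul_nonneg (by linarith) this.2.2.1
        linarith
      · have e1 : 0 ≤ p * (1 - P) ^ 3 := mul_nonneg hp0.le this.2.2.2
        have e2 : (1 - p) * P ^ 3 ≤ 1 := by nlinarith
        linarith
    have a3' : 4 * W * (-(p * (1 - P) ^ 3) + (1 - p) * P ^ 3) ≤ 2 * W ^ 2 + 2 := by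
      obtain ⟨b1, b2⟩ := abs_le.1 a3
      set t : ℝ := -(p * (1 - P) ^ 3) + (1 - p) * P ^ 3 with ht
      have b3 : t ^ 2 ≤ 1 := by nlinarith
      nlinarith [sq_nonneg (W - t)]
    have a4 : p * (1 - P) ^ 4 + (1 - p) * P ^ 4 ≤ 1 := by
      have := hj 4
      nlinarith
    linarith
  have hst : ∀ n : ℕ, ∑ k ∈ Finset.range (2 ^ (n + 1)), ms g lam q (n + 1) k * WW lam (n + 1) k ^ 4 ≤
      ∑ k ∈ Finset.range (2 ^ n), ms g lam q n k * WW lam n k ^ 4 +
      (8 * (n + C2) + (4 * (n : ℝ) ^ 3 * (C * ρ ^ n) + 3)) := by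
    intro n
    rw [hstep]
    gcongr
    calc _ ≤ ∑ k ∈ Finset.range (2 ^ n), ms g lam q n k * (8 * WW lam n k ^ 2 + (4 * (n : ℝ) ^ 3 * (C * ρ ^ n) + 3)) :=
          Finset.sum_le_sum fun k _ => mul_le_mul_of_nonneg_left (hpt n k) (D.ms0 n k).le
      _ = 8 * ∑ k ∈ Finset.range (2 ^ n), ms g lam q n k * WW lam n k ^ 2 +
          (4 * (n : ℝ) ^ 3 * (C * ρ ^ n) + 3) * ∑ k ∈ Finset.range (2 ^ n), ms g lam q n k := by
          rw [Finset.mul_sum, Finset.mul_sum, ← Finset.sum_add_distrib]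
          refine Finset.sum_congr rfl fun k _ => ?_
          ring
      _ ≤ _ := by
          rw [D.tot, mul_one]
          have := (hE2 n).2
          gcongr
  refine ⟨4 * C * K + 8 * C2 + 16, by positivity, fun n => ?_⟩
  have h3 := le_sum_of_step (fun n => ∑ k ∈ Finset.range (2 ^ n), ms g lam q n k * WW lam n k ^ 4)
    (fun n => 8 * (n + C2) + (4 * (n : ℝ) ^ 3 * (C * ρ ^ n) + 3)) (by simp [WW]) hst n
  refine le_trans h3 ?_
  have h4 : ∑ m ∈ Finset.range n, (8 * ((m : ℝ) + C2) + (4 * (m : ℝ) ^ 3 * (C * ρ ^ m) + 3)) ≤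
      4 * C * K + ∑ m ∈ Finset.range n, (8 * (n : ℝ) + 8 * C2 + 3) := by
    have h5 : ∑ m ∈ Finset.range n, (8 * ((m : ℝ) + C2) + (4 * (m : ℝ) ^ 3 * (C * ρ ^ m) + 3)) =
        4 * C * ∑ m ∈ Finset.range n, (m : ℝ) ^ 3 * ρ ^ m + ∑ m ∈ Finset.range n, (8 * (m : ℝ) + 8 * C2 + 3) := by
      rw [Finset.mul_sum, ← Finset.sum_add_distrib]
      refine Finset.sum_congr rfl fun m _ => ?_
      ring
    rw [h5]
    have h6 := hK n
    have h7 : ∑ m ∈ Finset.range n, (8 * (m : ℝ) + 8 * C2 + 3) ≤ ∑ m ∈ Finset.range n, (8 * (n : ℝ) + 8 * C2 + 3) := by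
      refine Finset.sum_le_sum fun m hm => ?_
      have : (m : ℝ) ≤ n := by exact_mod_cast (Finset.mem_range.1 hm).le
      linarith
    gcongr
  refine le_trans h4 ?_
  rw [Finset.sum_const, Finset.card_range, nsmul_eq_mul]
  have hn : (0 : ℝ) ≤ n := Nat.cast_nonneg n
  have hCK : 0 ≤ C * K := by positivity
  have e0 : 1 ≤ ((n : ℝ) + 1) ^ 2 := by nlinarith
  have e1 : 4 * C * K ≤ 4 * C * K * ((n : ℝ) + 1) ^ 2 :=
    le_mul_of_one_le_right (by positivity) e0
  have e2 : (n : ℝ) * (8 * n + 8 * C2 + 3) ≤ (8 * C2 + 16) * ((n : ℝ) + 1) ^ 2 := by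
    nlinarith [mul_nonneg hn hn, mul_nonneg hC2.le hn, mul_nonneg hC2.le (mul_nonneg hn hn)]
  nlinarith

end Pool.Agent.Q223.MD
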