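import Pool.Agent.Q88.MD.Stm

set_option autoImplicit false

/-!
# Project MD (helper88), job SUP: the sum of the squares of the masses
-/

noncomputable section

namespace Pool.Agent.Q223.MD

open Pool.Agent.Q88.MD

/-- the supersolution -/
def Psi (g lam q z : ℝ) : ℝ := 2 * z / g + lam + q / g + 2 * g / z

theorem Psi_ineq {g lam q z : ℝ} (hg : 0 < g) (hl : 1 ≤ lam) (hq : g ≤ q) (hz : 0 < z) :
    1 + pz g z ^ 2 * Psi g lam q (G0 g lam z) + (1 - pz g z) ^ 2 * Psi g lam q (G1 g q z) ≤
      Psi g lam q z := by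
  have hD : 0 < z + g := by positivity
  have hl0 : 0 < lam := by linarith
  have hq0 : 0 < q := by linarith
  set p : ℝ := pz g z with hp
  set r : ℝ := 1 - p with hr
  have hp' : p = z / (z + g) := rfl
  have hr' : r = g / (z + g) := by
    rw [hr, hp']
    field_simp
    ring
  have hp0 : 0 < p := by rw [hp']; positivity
  have hr0 : 0 < r := by rw [hr']; positivity
  have hpr : p + r = 1 := by rw [hr]; ring
  set w : ℝ := q / g with hw
  have hw1 : 1 ≤ w := by rw [hw, le_div_iff₀ hg]; linarith
  have hw0 : 0 < w := by linarith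
  have e1 : Psi g lam q z = 2 * (p / r) + lam + w + 2 * (r / p) := by
    unfold Psi
    have h1 : p / r = z / g := by rw [hp', hr']; field_simp
    have h2 : r / p = g / z := by rw [hp', hr']; field_simp
    rw [h1, h2, mul_div_assoc, mul_div_assoc]
  have e2 : Psi g lam q (G0 g lam z) = 2 / (lam * r) + lam + w + 2 * r * lam := by
    unfold Psi G0
    have h1 : 2 * ((z + g) / lam) / g = 2 / (lam * r) := by rw [hr']; field_simp
    have h2 : 2 * g / ((z + g) / lam) = 2 * r * lam := by rw [hr']; field_simp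
    rw [h1, h2]
  have e3 : Psi g lam q (G1 g q z) = 2 * w * p + lam + w + 2 / (w * p) := by
    unfold Psi G1
    have h1 : 2 * (q * z / (z + g)) / g = 2 * w * p := by rw [hw, hp']; field_simp
    have h2 : 2 * g / (q * z / (z + g)) = 2 / (w * p) := by rw [hw, hp']; field_simp
    rw [h1, h2]
  rw [e1, e2, e3]
  have f1 : p ^ 2 * (2 / (lam * r)) ≤ p ^ 2 * (2 / r) := by
    apply mul_le_mul_of_nonneg_left _ (by positivity)
    apply div_le_div_of_nonneg_left (by norm_num) hr0
    nlinarith
  have f2 : r ^ 2 * (2 / (w * p)) ≤ r ^ 2 * (2 / p) := by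
    apply mul_le_mul_of_nonneg_left _ (by positivity)
    apply div_le_div_of_nonneg_left (by norm_num) hp0
    nlinarith
  have f3 : 2 * (p / r) - p ^ 2 * (2 / r) = 2 * p := by
    have : p = 1 - r := by linarith
    field_simp
    rw [this]
    ring
  have f4 : 2 * (r / p) - r ^ 2 * (2 / p) = 2 * r := by
    have : r = 1 - p := by linarith
    field_simp
    rw [this]
    ring
  have f5 : (lam + w) * (1 - p ^ 2 - r ^ 2) = (lam + w) * (2 * p * r) := by
    have : r = 1 - p := by linarith
    rw [this]
    ring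
  have f6 : p ^ 2 * (2 * r * lam) ≤ 2 * p * r * lam := by
    have h1 : p ≤ 1 := by linarith
    have h2 : 0 ≤ 2 * p * r * lam * (1 - p) :=
      mul_nonneg (by positivity) (by linarith)
    nlinarith
  have f7 : r ^ 2 * (2 * w * p) ≤ 2 * p * r * w := by
    have h1 : r ≤ 1 := by linarith
    have h2 : 0 ≤ 2 * p * r * w * (1 - r) :=
      mul_nonneg (by positivity) (by linarith)
    nlinarith
  have g1 : p ^ 2 * (2 / (lam * r) + lam + w + 2 * r * lam) =
      p ^ 2 * (2 / (lam * r)) + (lam + w) * p ^ 2 + p ^ 2 * (2 * r * lam) := by ring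
  have g2 : r ^ 2 * (2 * w * p + lam + w + 2 / (w * p)) =
      r ^ 2 * (2 * w * p) + (lam + w) * r ^ 2 + r ^ 2 * (2 / (w * p)) := by ring
  rw [g1, g2]
  nlinarith

theorem supr (h : S_spos) : S_sup := by
  intro g lam q hg hl hq N
  have key : ∀ N : ℕ, ∑ n ∈ Finset.range N, ∑ k ∈ Finset.range (2 ^ n), ms g lam q n k ^ 2 +
      ∑ k ∈ Finset.range (2 ^ N), ms g lam q N k ^ 2 * Psi g lam q (st g lam q N k) ≤
      2 / g + lam + q / g + 2 * g := by
    intro N
    induction N with
    | zero =>
      simp [ms, st, Psi]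
    | succ n ih =>
      refine le_trans ?_ ih
      rw [Finset.sum_range_succ, add_assoc]
      gcongr
      rw [sum_dy, ← Finset.sum_add_distrib]
      refine Finset.sum_le_sum fun k _ => ?_
      rw [ms_even, ms_odd, st_even, st_odd]
      have h1 := Psi_ineq hg hl hq ((h g lam q hg hl hq n).1 k).1
      have h2 : 0 ≤ ms g lam q n k ^ 2 := by positivity
      have h3 := mul_le_mul_of_nonneg_left h1 h2
      refine le_trans (le_of_eq ?_) h3
      ring
  refine le_trans ?_ (key N)
  have h1 : 0 ≤ ∑ k ∈ Finset.range (2 ^ N), ms g lam q N k ^ 2 * Psi g lam q (st g lam q N k) := by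
    refine Finset.sum_nonneg fun k _ => ?_
    have h2 := ((h g lam q hg hl hq N).1 k).1
    have h3 : 0 < q := by linarith
    unfold Psi
    positivity
  linarith

end Pool.Agent.Q223.MD
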